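import Pool.Agent.W172.MK.Stm

/-!
MK-WIN: all finite window laws of the process agree.
-/

set_option autoImplicit false

open MeasureTheory ProbabilityTheory Filter Topology
open Pool.Agent.W172.MK

namespace Pool.Agent.W563.MK.Win

/-- multiplying an equality of set integrals by a bounded measurable function -/
theorem swap_int {Ω : Type} (m : MeasurableSpace Ω) [m0 : MeasurableSpace Ω] (P : Measure Ω)
    [IsProbabilityMeasure P] (hm : m ≤ m0) (φ ψ g : Ω → ℝ) (hφ : Integrable φ P)
    (hψ : Integrable ψ P) (hψm : Measurable[m] ψ) (hg : Measurable[m] g)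
    (C : ℝ) (hC : ∀ ω, |g ω| ≤ C)
    (h : ∀ G, MeasurableSet[m] G → ∫ ω in G, φ ω ∂P = ∫ ω in G, ψ ω ∂P) :
    ∫ ω, g ω * φ ω ∂P = ∫ ω, g ω * ψ ω ∂P := by
  have h1 : ψ =ᵐ[P] P[φ | m] := by
    refine ae_eq_condExp_of_forall_setIntegral_eq hm hφ (fun s _ _ => hψ.integrableOn)
      (fun s hs _ => (h s hs).symm) ?_
    exact hψm.stronglyMeasurable.aestronglyMeasurable
  have hgφ : Integrable (g * φ) P := by
    refine hφ.bdd_mul (c := C) (hg.mono hm le_rfl).aestronglyMeasurable (ae_of_all _ fun x => ?_)
    rw [Real.norm_eq_abs]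
    exact hC x
  have h2 : P[g * φ | m] =ᵐ[P] g * P[φ | m] :=
    condExp_mul_of_stronglyMeasurable_left hg.stronglyMeasurable hgφ hφ
  have h3 : ∫ ω, (g * φ) ω ∂P = ∫ ω, (P[g * φ | m]) ω ∂P := (integral_condExp hm).symm
  have h4 : ∫ ω, g ω * φ ω ∂P = ∫ ω, (g * φ) ω ∂P := rfl
  rw [h4, h3]
  refine integral_congr_ae ?_
  filter_upwards [h1, h2] with ω k1 k2
  rw [k2, Pi.mul_apply, k1]

/-- measurability of products of functions of the process -/
theorem prod_meas {Ω S : Type} (m : MeasurableSpace Ω) [MeasurableSpace S] (X : ℤ → Ω → S)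
    (f : ℕ → S → ℝ) (hf : ∀ i, Measurable (f i)) (k : ℤ) (N : ℕ)
    (hX : ∀ i : ℕ, i ∈ Finset.range (N + 1) → Measurable[m] (X (k + i))) :
    Measurable[m] (fun ω => ∏ i ∈ Finset.range (N + 1), f i (X (k + i) ω)) :=
  Finset.measurable_fun_prod _ fun i hi => (hf i).comp (hX i hi)

theorem prod_bdd {Ω S : Type} (X : ℤ → Ω → S)
    (f : ℕ → S → ℝ) (C : ℝ) (hC : ∀ i z, |f i z| ≤ C) (k : ℤ) (N : ℕ) (ω : Ω) :
    |∏ i ∈ Finset.range N, f i (X (k + i) ω)| ≤ |C| ^ N := by
  rw [Finset.abs_prod]
  calc ∏ i ∈ Finset.range N, |f i (X (k + i) ω)| ≤ ∏ i ∈ Finset.range N, |C| :=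
        Finset.prod_le_prod (fun i _ => abs_nonneg _) (fun i _ => (hC i _).trans (le_abs_self _))
    _ = |C| ^ N := by rw [Finset.prod_const, Finset.card_range]

section
variable {S : Type} [MeasurableSpace S] {μ : Measure S} [IsProbabilityMeasure μ] {p : S → S → ℝ}

theorem pf_meas (hK : Ker μ p) {f : S → ℝ} (hf : Measurable f) : Measurable (Pf μ p f) := by
  have h1 : Measurable (fun w : S × S => p w.1 w.2 * f w.2) :=
    hK.meas.mul (hf.comp measurable_snd)
  exact h1.stronglyMeasurable.integral_prod_right'.measurable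

theorem pf_bdd (hK : Ker μ p) {f : S → ℝ} {C : ℝ} (hC : ∀ z, |f z| ≤ C)
    (x : S) : |Pf μ p f x| ≤ C := by
  obtain ⟨D, hD⟩ := hK.bdd
  have hpm : Measurable (fun z => p x z) := hK.meas.comp measurable_prodMk_left
  have i1 : Integrable (fun z => p x z) μ := by
    refine (integrable_const D).mono' hpm.aestronglyMeasurable (ae_of_all _ fun z => ?_)
    rw [Real.norm_eq_abs, abs_of_nonneg (hK.nonneg x z)]
    exact hD x z
  unfold Pf
  have h1 : |∫ z, p x z * f z ∂μ| ≤ ∫ z, p x z * C ∂μ := by
    rw [← Real.norm_eq_abs]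
    refine norm_integral_le_of_norm_le (i1.mul_const C) (ae_of_all _ fun z => ?_)
    rw [Real.norm_eq_abs, abs_mul, abs_of_nonneg (hK.nonneg x z)]
    exact mul_le_mul_of_nonneg_left (hC z) (hK.nonneg x z)
  rw [integral_mul_const, hK.row x, one_mul] at h1
  exact h1

end

/-- MK-WIN -/
theorem win : P_XM → P_STEP → P_LAW → P_WIN := by
  intro hXM hST hLAW S mS μ hμ p F hK hR N
  obtain ⟨hXm, hpast, -, -⟩ := hXM S mS F hR.meas
  have hXp : ∀ n m : ℤ, m ≤ n → Measurable[past F n] (XX F m) := by
    intro n m hmn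
    have h1 : MeasurableSpace.comap (XX F m) mS ≤ past F n :=
      le_iSup₂_of_le (f := fun (m : ℤ) (_ : m ≤ n) => MeasurableSpace.comap (XX F m) mS) m hmn
        le_rfl
    exact (comap_measurable (XX F m)).mono h1 le_rfl
  induction N with
  | zero =>
      intro f hf hC k k'
      obtain ⟨C, hC⟩ := hC
      simp only [zero_add, Finset.range_one, Finset.prod_singleton, Nat.cast_zero, add_zero]
      rw [hLAW S mS μ hμ p F hK hR k (f 0) (hf 0) ⟨C, hC 0⟩,
        hLAW S mS μ hμ p F hK hR k' (f 0) (hf 0) ⟨C, hC 0⟩]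
  | succ N ih =>
      intro f hf hC k k'
      obtain ⟨C, hC⟩ := hC
      set f' : ℕ → S → ℝ := fun i z =>
        if i = N then f N z * Pf μ p (f (N + 1)) z else f i z with hf'
      have key : ∀ k : ℤ, ∫ ω, ∏ i ∈ Finset.range (N + 1 + 1), f i (XX F (k + i) ω) ∂(PM μ)
          = ∫ ω, ∏ i ∈ Finset.range (N + 1), f' i (XX F (k + i) ω) ∂(PM μ) := by
        intro k
        have e0 : ∀ ω, ∏ i ∈ Finset.range (N + 1 + 1), f i (XX F (k + i) ω)
            = (∏ i ∈ Finset.range (N + 1), f i (XX F (k + i) ω))
              * f (N + 1) (XX F (k + N + 1) ω) := by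
          intro ω
          rw [Finset.prod_range_succ _ (N + 1)]
          congr 3
          push_cast
          ring
        have e1 : ∀ ω, ∏ i ∈ Finset.range (N + 1), f' i (XX F (k + i) ω)
            = (∏ i ∈ Finset.range (N + 1), f i (XX F (k + i) ω))
              * Pf μ p (f (N + 1)) (XX F (k + N) ω) := by
          intro ω
          rw [Finset.prod_range_succ, Finset.prod_range_succ]
          have e2 : ∏ i ∈ Finset.range N, f' i (XX F (k + i) ω)
              = ∏ i ∈ Finset.range N, f i (XX F (k + i) ω) := by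
            refine Finset.prod_congr rfl fun i hi => ?_
            rw [Finset.mem_range] at hi
            simp only [hf']
            rw [if_neg (by omega)]
          rw [e2]
          simp only [hf', if_true]
          ring
        simp only [e0, e1]
        have hi : ∀ ψ : Om S → ℝ, Measurable ψ → (∀ ω, |ψ ω| ≤ |C|) → Integrable ψ (PM μ) := by
          intro ψ h1 h2
          refine (integrable_const |C|).mono' h1.aestronglyMeasurable (ae_of_all _ fun z => ?_)
          rw [Real.norm_eq_abs]
          exact h2 z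
        refine swap_int (past F (k + N)) (PM μ) (hpast _)
          (fun ω => f (N + 1) (XX F (k + N + 1) ω))
          (fun ω => Pf μ p (f (N + 1)) (XX F (k + N) ω))
          (fun ω => ∏ i ∈ Finset.range (N + 1), f i (XX F (k + i) ω)) ?_ ?_ ?_ ?_
          (|C| ^ (N + 1)) ?_ ?_
        · exact hi _ ((hf _).comp (hXm _)) fun ω => (hC _ _).trans (le_abs_self _)
        · exact hi _ ((pf_meas hK (hf _)).comp (hXm _)) fun ω =>
            (pf_bdd hK (hC _) _).trans (le_abs_self _)
        · exact (pf_meas hK (hf _)).comp (hXp _ _ le_rfl)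
        · refine prod_meas (past F (k + N)) (XX F) f hf k N fun i hi => hXp _ _ ?_
          rw [Finset.mem_range] at hi
          omega
        · intro ω
          exact prod_bdd (XX F) f C hC k (N + 1) ω
        · intro G hG
          exact hST S mS μ hμ p F hK hR (k + N) G hG (f (N + 1)) (hf _) ⟨C, hC _⟩
      rw [key k, key k']
      refine ih f' ?_ ⟨|C| * |C| + |C|, ?_⟩ k k'
      · intro i
        simp only [hf']
        by_cases h : i = N
        · simp only [h, if_true]
          exact (hf N).mul (pf_meas hK (hf _))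
        · simp only [h, if_false]
          exact hf i
      · intro i z
        simp only [hf']
        by_cases h : i = N
        · simp only [h, if_true]
          rw [abs_mul]
          have h1 : |f N z| ≤ |C| := (hC N z).trans (le_abs_self _)
          have h2 : |Pf μ p (f (N + 1)) z| ≤ |C| :=
            (pf_bdd hK (hC _) _).trans (le_abs_self _)
          have h3 := mul_le_mul h1 h2 (abs_nonneg _) (abs_nonneg C)
          linarith [abs_nonneg C]
        · simp only [h, if_false]
          have h1 : |f i z| ≤ |C| := (hC i z).trans (le_abs_self _)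
          nlinarith [abs_nonneg C]

end Pool.Agent.W563.MK.Win
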